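import Pool.Agent.E8helper83.TW.Clo0
import Pool.Agent.E8helper1.TW.Stm

/-!
# Project TW: the pieces CLO and CJ
-/

set_option autoImplicit false
set_option linter.unusedSectionVars false

namespace Pool.Agent.E8helper83.TW

open Matrix Pool.Agent.E8helper1.TX Pool.Agent.E8helper26.TX Pool.Agent.E8helper1.TW

/-- CLO -/
theorem t_CLO : S_CLO := by
  intro n _ _ L p hp
  refine ⟨{
    S := fun m => CF L p m
    one_mem := fun m => ⟨fun x _ => by rw [one_mul, mul_one], by rw [one_mul, mul_one]⟩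
    mul_mem := ?_
    oneT_mem := ?_
    sw_mem := fun m => ⟨fun x _ => perm_comm_dpow _ _, perm_comm_tpow _ _⟩
    trL_mem := ?_ }, fun m => rfl⟩
  · rintro m A B ⟨hA1, hA2⟩ ⟨hB1, hB2⟩
    refine ⟨fun x hx => ?_, ?_⟩
    · rw [Matrix.mul_assoc, hB1 x hx, ← Matrix.mul_assoc, hA1 x hx, Matrix.mul_assoc]
    · rw [Matrix.mul_assoc, hB2, ← Matrix.mul_assoc, hA2, Matrix.mul_assoc]
  · rintro m B ⟨hB1, hB2⟩
    exact ⟨fun x hx => oneT_dpow (hB1 x hx), oneT_tpow hB2⟩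
  · rintro m A ⟨hA1, hA2⟩
    exact ⟨fun x hx => trL_dpow (hA1 x hx), trL_tpow hp hA2⟩

/-- CJ -/
theorem t_CJ : S_CJ := by
  intro n _ _ P0 P hPd
  have hPP : P⁻¹ * P = 1 := Matrix.nonsing_inv_mul _ hPd
  have hE : ∀ m, tpow P m * tpow P⁻¹ m = 1 := fun m => tpow_mul_inv P hPd
  have hE' : ∀ m, tpow P⁻¹ m * tpow P m = 1 := fun m => tpow_inv_mul P hPd
  have hc : ∀ m A, cjm P m A = tpow P⁻¹ m * A * tpow P m := fun m A => rfl
  refine ⟨{
    S := fun m => (P0.S m).map (cjm P m)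
    one_mem := fun m => ⟨1, P0.one_mem m, by rw [hc, Matrix.mul_one, hE']⟩
    mul_mem := ?_
    oneT_mem := ?_
    sw_mem := ?_
    trL_mem := ?_ }, fun m => rfl⟩
  · rintro m _ _ ⟨A, hA, rfl⟩ ⟨A', hA', rfl⟩
    refine ⟨A * A', P0.mul_mem hA hA', ?_⟩
    rw [hc, hc, hc]
    calc tpow P⁻¹ m * (A * A') * tpow P m
        = tpow P⁻¹ m * A * 1 * A' * tpow P m := by
          rw [Matrix.mul_one, ← Matrix.mul_assoc (tpow P⁻¹ m)]
      _ = _ := by
          rw [← hE m]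
          simp only [Matrix.mul_assoc]
  · rintro m _ ⟨A, hA, rfl⟩
    refine ⟨oneT A, P0.oneT_mem hA, ?_⟩
    rw [hc, hc, oneT_eq, oneT_eq, tpow_succ, tpow_succ, consT_mul, consT_mul, mul_one, hPP]
  · intro m
    refine ⟨_, P0.sw_mem m, ?_⟩
    rw [hc, Matrix.mul_assoc, perm_comm_tpow, ← Matrix.mul_assoc, hE', Matrix.one_mul]
  · rintro m _ ⟨A, hA, rfl⟩
    refine ⟨trL A, P0.trL_mem hA, ?_⟩
    rw [hc, hc, tpow_succ, tpow_succ, trL_conj _ _ _ _ _ (Matrix.mul_nonsing_inv _ hPd)]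

end Pool.Agent.E8helper83.TW
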