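import Mathlib
import Pool.Agent.E8helper26.TX.TRF0

/-!
# Project TW: the pieces CLO and CJ, lemmas
-/

set_option autoImplicit false
set_option linter.unusedSectionVars false

namespace Pool.Agent.E8helper83.TW

open Matrix Pool.Agent.E8helper1.TX Pool.Agent.E8helper26.TX

variable {n : Type} [Fintype n] [DecidableEq n] {m : ℕ}

theorem dpow_succ (x : Matrix n n ℂ) :
    dpow x (m + 1) = consT x (1 : Op n m) + consT 1 (dpow x m) := by
  refine ext_cons fun b c I J => ?_
  rw [Matrix.add_apply, consT_cons, consT_cons]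
  unfold dpow
  rw [Fin.sum_univ_succ]
  congr 1
  · simp only [Fin.cons_zero]
    by_cases h : I = J
    · subst h
      rw [if_pos, Matrix.one_apply_eq, mul_one]
      intro j hj
      obtain ⟨i, rfl⟩ := Fin.exists_succ_eq.2 hj
      rw [Fin.cons_succ, Fin.cons_succ]
    · rw [if_neg, Matrix.one_apply_ne h, mul_zero]
      intro h1
      apply h
      funext i
      have := h1 i.succ (Fin.succ_ne_zero i)
      rwa [Fin.cons_succ, Fin.cons_succ] at this
  · rw [Finset.mul_sum]
    refine Finset.sum_congr rfl fun i _ => ?_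
    rw [Fin.cons_succ, Fin.cons_succ]
    by_cases hbc : b = c
    · subst hbc
      rw [Matrix.one_apply_eq, one_mul]
      refine if_congr ?_ rfl rfl
      constructor
      · intro h j hj
        have := h j.succ (fun h1 => hj (Fin.succ_injective _ h1))
        rwa [Fin.cons_succ, Fin.cons_succ] at this
      · intro h j hj
        rcases Fin.eq_zero_or_eq_succ j with rfl | ⟨j, rfl⟩
        · rw [Fin.cons_zero, Fin.cons_zero]
        · rw [Fin.cons_succ, Fin.cons_succ]
          exact h j (fun h1 => hj (by rw [h1]))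
    · rw [Matrix.one_apply_ne hbc, zero_mul, if_neg]
      intro h
      apply hbc
      have := h 0 (Fin.succ_ne_zero i).symm
      rwa [Fin.cons_zero, Fin.cons_zero] at this

theorem perm_comm_dpow (σ : Equiv.Perm (Fin m)) (x : Matrix n n ℂ) :
    perm σ * dpow x m = dpow x m * perm σ := by
  ext I J
  rw [perm_mul_apply, mul_perm_apply]
  unfold dpow
  rw [← Equiv.sum_comp σ]
  refine Finset.sum_congr rfl fun i _ => ?_
  have e0 : ∀ i, σ⁻¹ (σ i) = i := fun i => σ.symm_apply_apply i
  simp only [Function.comp_apply, e0]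
  refine if_congr ?_ rfl rfl
  constructor
  · intro h j hj
    have := h (σ j) (fun h1 => hj (σ.injective h1))
    rwa [e0] at this
  · intro h j hj
    obtain ⟨j, rfl⟩ := σ.surjective j
    have := h j (fun h1 => hj (by rw [h1]))
    rwa [e0]

theorem consT_add (a : Matrix n n ℂ) (X Y : Op n m) : consT a (X + Y) = consT a X + consT a Y := by
  ext I J
  unfold consT
  rw [Matrix.add_apply]
  exact mul_add _ _ _

theorem trL_add (A B : Op n (m + 1)) : trL (A + B) = trL A + trL B := by
  ext I J
  rw [Matrix.add_apply, trL_apply, trL_apply, trL_apply, ← Finset.sum_add_distrib]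
  rfl

/-- the derivations -/
theorem oneT_dpow {x : Matrix n n ℂ} {B : Op n m} (h : B * dpow x m = dpow x m * B) :
    oneT B * dpow x (m + 1) = dpow x (m + 1) * oneT B := by
  rw [oneT_eq, dpow_succ, mul_add, add_mul, consT_mul, consT_mul, consT_mul, consT_mul, h]
  simp only [one_mul, mul_one]

theorem oneT_tpow {p : Matrix n n ℂ} {B : Op n m} (h : B * tpow p m = tpow p m * B) :
    oneT B * tpow p (m + 1) = tpow p (m + 1) * oneT B := by
  rw [oneT_eq, tpow_succ, consT_mul, consT_mul, h, one_mul, mul_one]

theorem trL_dpow {x : Matrix n n ℂ} {A : Op n (m + 1)}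
    (h : A * dpow x (m + 1) = dpow x (m + 1) * A) : trL A * dpow x m = dpow x m * trL A := by
  rw [dpow_succ, mul_add, add_mul] at h
  have h1 := congrArg trL h
  rw [trL_add, trL_add, trL_comm, trL_left, trL_right] at h1
  exact add_left_cancel h1

theorem trL_tpow {p : Matrix n n ℂ} (hp : p * p = 1) {A : Op n (m + 1)}
    (h : A * tpow p (m + 1) = tpow p (m + 1) * A) : trL A * tpow p m = tpow p m * trL A := by
  rw [tpow_succ] at h
  have h1 : consT p 1 * A * consT p (tpow p m) = consT 1 (tpow p m) * A := by
    rw [Matrix.mul_assoc, h, ← Matrix.mul_assoc, consT_mul, hp, one_mul]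
  have h2 := congrArg trL h1
  rw [trL_conj _ _ _ _ _ hp, trL_left, one_mul] at h2
  exact h2

end Pool.Agent.E8helper83.TW
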